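import Mathlib
import Pool.Agent.R333.Slow

/-!
# A pair of `R_T'` which is not slowest at `g_t + β g_{t-1}` for `t ≥ 3`

Let `T = {(4, 9), (23, 27)}`, so `γ_{4,9} = 2 + √13 = Γ_T` and
`γ_{23,27} = (23 + 7 √13) / 2 < Γ_T ^ 2`. For all `t ≥ 3` the integer `n = g_t + 27 g_{t-1}`, which
the `(23, 27)`-walks reach at the index `t + 1` and not later, is reached by a `(4, 9)`-walk at the
index `t + 2`. (With `h = (5 + √13) / 2`, an integer of norm `3`, one has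
`γ_{23,27} = γ_{4,9} h` and `h² (√13 - 3) = 2 γ_{4,9}`.)
-/

set_option autoImplicit false

namespace Pool.Agent.Results.MP_1596c6_nt.FinitelyManyT

open Pool.Agent.R333.Slow

/-- The sequence `g 1 = 1`, `g 2 = α`, `g (k + 2) = α g (k + 1) + β g k` (`g 0 = 0`). -/
def g (α β : ℕ) : ℕ → ℕ
  | 0 => 0
  | 1 => 1
  | 2 => α
  | (k + 3) => α * g α β (k + 2) + β * g α β (k + 1)

lemma g_eq (α β : ℕ) (k : ℕ) :
    g α β (k + 2) + β * g α β (k + 1) = w α β 1 1 (k + 3) := by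
  have h : ∀ k, g α β (k + 2) + β * g α β (k + 1) = w α β 1 1 (k + 3) ∧
      g α β (k + 3) + β * g α β (k + 2) = w α β 1 1 (k + 4) := by
    intro k
    induction k with
    | zero =>
      constructor
      · show α + β * 1 = α * 1 + β * 1
        ring
      · show α * α + β * 1 + β * α = α * (α * 1 + β * 1) + β * 1
        ring
    | succ k ih =>
      refine ⟨ih.2, ?_⟩
      rw [show k + 1 + 4 = (k + 2) + 3 by ring, w_succ, show k + 2 + 2 = k + 4 by ring,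
        show k + 2 + 1 = k + 3 by ring, ← ih.1, ← ih.2]
      show (α * g α β (k + 3) + β * g α β (k + 2)) + β * g α β (k + 3) = _
      show _ = α * (g α β (k + 3) + β * g α β (k + 2)) + β * (g α β (k + 2) + β * g α β (k + 1))
      have : g α β (k + 3) = α * g α β (k + 2) + β * g α β (k + 1) := rfl
      rw [this]
      ring
  exact (h k).1

/-- `2 h ^ j = P j + Q j √13` for `h = (5 + √13) / 2`, `j ≥ 1` -/
def P : ℕ → ℤ
  | 0 => 2
  | 1 => 5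
  | (j + 2) => 5 * P (j + 1) - 3 * P j

/-- see `P` -/
def Q : ℕ → ℤ
  | 0 => 0
  | 1 => 1
  | (j + 2) => 5 * Q (j + 1) - 3 * Q j

lemma step (j : ℕ) : 2 * P (j + 1) = 5 * P j + 13 * Q j ∧ 2 * Q (j + 1) = P j + 5 * Q j := by
  have h : ∀ j, (2 * P (j + 1) = 5 * P j + 13 * Q j ∧ 2 * Q (j + 1) = P j + 5 * Q j) ∧
      (2 * P (j + 2) = 5 * P (j + 1) + 13 * Q (j + 1) ∧
        2 * Q (j + 2) = P (j + 1) + 5 * Q (j + 1)) := by
    intro j
    induction j with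
    | zero => exact ⟨⟨by norm_num [P, Q], by norm_num [P, Q]⟩, ⟨by norm_num [P, Q], by norm_num [P, Q]⟩⟩
    | succ j ih =>
      refine ⟨ih.2, ?_⟩
      have p1 : P (j + 1 + 2) = 5 * P (j + 2) - 3 * P (j + 1) := rfl
      have q1 : Q (j + 1 + 2) = 5 * Q (j + 2) - 3 * Q (j + 1) := rfl
      have p2 : P (j + 1 + 1) = 5 * P (j + 1) - 3 * P j := rfl
      have q2 : Q (j + 1 + 1) = 5 * Q (j + 1) - 3 * Q j := rfl
      have p3 : P (j + 2) = 5 * P (j + 1) - 3 * P j := rfl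
      have q3 : Q (j + 2) = 5 * Q (j + 1) - 3 * Q j := rfl
      obtain ⟨⟨a1, a2⟩, ⟨a3, a4⟩⟩ := ih
      rw [p1, q1]
      constructor <;> linarith
  exact (h j).1

lemma pos (j : ℕ) : 1 ≤ Q (j + 1) ∧ 0 ≤ P (j + 1) := by
  have h : ∀ j, 1 ≤ Q (j + 1) ∧ 0 ≤ P (j + 1) ∧ Q (j + 1) ≤ Q (j + 2) ∧ P (j + 1) ≤ P (j + 2) := by
    intro j
    induction j with
    | zero => norm_num [P, Q]
    | succ j ih =>
      have p1 : P (j + 1 + 2) = 5 * P (j + 2) - 3 * P (j + 1) := rfl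
      have q1 : Q (j + 1 + 2) = 5 * Q (j + 2) - 3 * Q (j + 1) := rfl
      obtain ⟨a1, a2, a3, a4⟩ := ih
      refine ⟨?_, ?_, ?_, ?_⟩
      · show 1 ≤ Q (j + 2); linarith
      · show 0 ≤ P (j + 2); linarith
      · rw [q1]; show Q (j + 2) ≤ _; linarith
      · rw [p1]; show P (j + 2) ≤ _; linarith
  exact ⟨(h j).1, (h j).2.1⟩

/-- multiplication by a power of `2 + √13` of `p + q √13` -/
def E (p q : ℤ) : ℕ → ℤ × ℤ
  | 0 => (p, q)
  | (k + 1) => (2 * (E p q k).1 + 13 * (E p q k).2, (E p q k).1 + 2 * (E p q k).2)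

/-- the `(4, 9)`-walk in terms of `E` -/
lemma walk_eq (a b : ℕ) (k : ℕ) : (w 4 9 a b (k + 1) : ℤ) = (E ((b : ℤ) - 2 * a) a k).2 ∧
    (w 4 9 a b (k + 2) : ℤ) = (E ((b : ℤ) - 2 * a) a k).1 + 2 * (E ((b : ℤ) - 2 * a) a k).2 := by
  induction k with
  | zero =>
    constructor
    · rfl
    · show (b : ℤ) = (b - 2 * a) + 2 * a
      ring
  | succ k ih =>
    obtain ⟨h1, h2⟩ := ih
    constructor
    · rw [show k + 1 + 1 = k + 2 by ring, h2]
      rfl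
    · rw [show k + 1 + 2 = k + 3 by ring, w_succ]
      push_cast
      rw [h1, h2]
      show _ = (2 * (E ((b : ℤ) - 2 * a) a k).1 + 13 * (E ((b : ℤ) - 2 * a) a k).2) +
        2 * ((E ((b : ℤ) - 2 * a) a k).1 + 2 * (E ((b : ℤ) - 2 * a) a k).2)
      ring

/-- multiplying the starting value by `h` -/
lemma E_step (p q p' q' : ℤ) (hp : 2 * p' = 5 * p + 13 * q) (hq : 2 * q' = p + 5 * q) (k : ℕ) :
    2 * (E p' q' k).1 = 5 * (E p q k).1 + 13 * (E p q k).2 ∧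
      2 * (E p' q' k).2 = (E p q k).1 + 5 * (E p q k).2 := by
  induction k with
  | zero => exact ⟨hp, hq⟩
  | succ k ih =>
    obtain ⟨h1, h2⟩ := ih
    show 2 * (2 * (E p' q' k).1 + 13 * (E p' q' k).2) =
        5 * (2 * (E p q k).1 + 13 * (E p q k).2) + 13 * ((E p q k).1 + 2 * (E p q k).2) ∧
      2 * ((E p' q' k).1 + 2 * (E p' q' k).2) =
        (2 * (E p q k).1 + 13 * (E p q k).2) + 5 * ((E p q k).1 + 2 * (E p q k).2)
    constructor <;> linarith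

/-- the main identity -/
lemma main_id (j : ℕ) : (E (P (j + 1)) (Q (j + 1)) (j + 4)).2 = w 23 27 1 1 (j + 4) ∧
    2 * (w 23 27 1 1 (j + 5) : ℤ) = 7 * (E (P (j + 1)) (Q (j + 1)) (j + 4)).1 +
      23 * (E (P (j + 1)) (Q (j + 1)) (j + 4)).2 := by
  induction j with
  | zero => constructor <;> rfl
  | succ j ih =>
    obtain ⟨h1, h2⟩ := ih
    obtain ⟨s1, s2⟩ := step (j + 1)
    obtain ⟨e1, e2⟩ := E_step (P (j + 1)) (Q (j + 1)) (P (j + 2)) (Q (j + 2)) s1 s2 (j + 4)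
    set x := (E (P (j + 1)) (Q (j + 1)) (j + 4)).1 with hx
    set y := (E (P (j + 1)) (Q (j + 1)) (j + 4)).2 with hy
    have f1 : (E (P (j + 1 + 1)) (Q (j + 1 + 1)) (j + 1 + 4)).1 =
        2 * (E (P (j + 2)) (Q (j + 2)) (j + 4)).1 + 13 * (E (P (j + 2)) (Q (j + 2)) (j + 4)).2 := rfl
    have f2 : (E (P (j + 1 + 1)) (Q (j + 1 + 1)) (j + 1 + 4)).2 =
        (E (P (j + 2)) (Q (j + 2)) (j + 4)).1 + 2 * (E (P (j + 2)) (Q (j + 2)) (j + 4)).2 := rfl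
    have f3 : (w 23 27 1 1 (j + 1 + 5) : ℤ) = 23 * (w 23 27 1 1 (j + 5) : ℤ) +
        27 * (w 23 27 1 1 (j + 4) : ℤ) := by
      rw [show j + 1 + 5 = (j + 3) + 3 by ring, w_succ]
      push_cast
      rfl
    rw [f1, f2, f3, show j + 1 + 4 = j + 5 by ring]
    constructor <;> linarith

lemma reached (j : ℕ) : ∃ a b : ℕ, 1 ≤ a ∧ 1 ≤ b ∧ w 4 9 a b (j + 5) = w 23 27 1 1 (j + 4) := by
  obtain ⟨hq, hp⟩ := pos j
  obtain ⟨a, ha⟩ : ∃ a : ℕ, (a : ℤ) = Q (j + 1) := ⟨(Q (j + 1)).toNat, Int.toNat_of_nonneg (by omega)⟩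
  obtain ⟨b, hb⟩ : ∃ b : ℕ, (b : ℤ) = P (j + 1) + 2 * Q (j + 1) :=
    ⟨(P (j + 1) + 2 * Q (j + 1)).toNat, Int.toNat_of_nonneg (by omega)⟩
  refine ⟨a, b, by omega, by omega, ?_⟩
  have h := (walk_eq a b (j + 4)).1
  rw [hb, ha, show P (j + 1) + 2 * Q (j + 1) - 2 * Q (j + 1) = P (j + 1) by ring, (main_id j).1] at h
  exact_mod_cast h

lemma gam49 : gam 4 9 = 2 + √13 := by
  unfold gam
  have : √(((4 : ℕ) : ℝ) ^ 2 + 4 * ((9 : ℕ) : ℝ)) = 2 * √13 := by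
    rw [show ((4 : ℕ) : ℝ) ^ 2 + 4 * ((9 : ℕ) : ℝ) = 2 ^ 2 * 13 by norm_num,
      Real.sqrt_mul (by norm_num), Real.sqrt_sq (by norm_num)]
  rw [this]
  push_cast
  ring

lemma gam2327 : gam 23 27 = (23 + 7 * √13) / 2 := by
  unfold gam
  have : √(((23 : ℕ) : ℝ) ^ 2 + 4 * ((27 : ℕ) : ℝ)) = 7 * √13 := by
    rw [show ((23 : ℕ) : ℝ) ^ 2 + 4 * ((27 : ℕ) : ℝ) = 7 ^ 2 * 13 by norm_num,
      Real.sqrt_mul (by norm_num), Real.sqrt_sq (by norm_num)]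
  rw [this]
  push_cast
  ring

/-- **Main theorem.** There are a nonempty set `T` of pairs of coprime positive integers and a pair
`p = (α, β) ∈ T` with `γ_{α,β} < Γ_T ^ 2` (that is, `p ∈ R_T'`) such that
`(α, β) ∈ S_T(g_t + β g_{t-1})` for only finitely many `t ≥ 2`. -/
theorem result : ∃ T : Set (ℕ × ℕ), T.Nonempty ∧
    (∀ p ∈ T, 1 ≤ p.1 ∧ 1 ≤ p.2 ∧ Nat.Coprime p.1 p.2) ∧
    ∃ p ∈ T, gam p.1 p.2 < GamT T ^ 2 ∧
      {t : ℕ | 2 ≤ t ∧ p ∈ ST T (g p.1 p.2 t + p.2 * g p.1 p.2 (t - 1))}.Finite := by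
  refine ⟨{(4, 9), (23, 27)}, ⟨(4, 9), by simp⟩, ?_, (23, 27), by simp, ?_, ?_⟩
  · intro p hp
    simp only [Set.mem_insert_iff, Set.mem_singleton_iff] at hp
    rcases hp with rfl | rfl <;> exact ⟨by norm_num, by norm_num, by norm_num⟩
  · rw [GamT_pair]
    show gam 23 27 < (min (gam 4 9) (gam 23 27)) ^ 2
    have h13 : 0 ≤ √13 := Real.sqrt_nonneg 13
    have hsq : √13 * √13 = 13 := Real.mul_self_sqrt (by norm_num)
    rw [gam49, gam2327, min_eq_left (by linarith)]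
    nlinarith
  · refine (Set.finite_singleton 2).subset ?_
    rintro t ⟨ht, hT⟩
    by_contra hne
    have ht3 : 3 ≤ t := by
      rcases Nat.lt_or_ge t 3 with h | h
      · exact absurd (show t = 2 by omega) hne
      · exact h
    obtain ⟨j, rfl⟩ : ∃ j, t = j + 3 := ⟨t - 3, by omega⟩
    have hn : g 23 27 (j + 3) + 27 * g 23 27 (j + 3 - 1) = w 23 27 1 1 (j + 4) := g_eq 23 27 (j + 1)
    have hT2 : s 23 27 (w 23 27 1 1 (j + 4)) = sT {(4, 9), (23, 27)} (w 23 27 1 1 (j + 4)) := by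
      have := hT.2
      rw [show (((23, 27) : ℕ × ℕ)).1 = 23 from rfl, show (((23, 27) : ℕ × ℕ)).2 = 27 from rfl, hn] at this
      exact this
    rw [sT_pair] at hT2
    have h1 : s 4 9 (w 23 27 1 1 (j + 4)) ≤ s 23 27 (w 23 27 1 1 (j + 4)) := by
      rw [hT2]
      exact le_max_left _ _
    obtain ⟨a, b, ha, hb, hab⟩ := reached j
    have h2 : j + 5 ≤ s 4 9 (w 23 27 1 1 (j + 4)) :=
      le_s (by norm_num) (by norm_num) (by omega) ha hb hab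
    have h3 : s 23 27 (w 23 27 1 1 (j + 4)) ≤ j + 4 := s_one_one (by norm_num) (by norm_num) _ (by omega)
    omega

end Pool.Agent.Results.MP_1596c6_nt.FinitelyManyT
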